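import Pool.Agent.P8H39.FDF.Stm

/-! Package PT1 of project FDF: the pointwise inequality. -/

set_option autoImplicit false

namespace Pool.Agent.P8H53.FDF

open Finset P8H39.FDF

section av

variable {V : Type} [Fintype V]

theorem av_add (f g : V → ℝ) : (av fun y => f y + g y) = av f + av g := by
  unfold av
  rw [Finset.sum_add_distrib, add_div]

theorem av_sub (f g : V → ℝ) : (av fun y => f y - g y) = av f - av g := by
  unfold av
  rw [Finset.sum_sub_distrib, sub_div]

theorem av_mul (c : ℝ) (f : V → ℝ) : (av fun y => c * f y) = c * av f := by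
  unfold av
  rw [← Finset.mul_sum, mul_div_assoc]

theorem av_mul' (c : ℝ) (f : V → ℝ) : (av fun y => f y * c) = av f * c := by
  unfold av
  rw [← Finset.sum_mul, div_mul_eq_mul_div]

theorem av_le {f g : V → ℝ} (h : ∀ y, f y ≤ g y) : av f ≤ av g :=
  div_le_div_of_nonneg_right (Finset.sum_le_sum fun y _ => h y) (Nat.cast_nonneg _)

theorem av_swap (f : V → V → ℝ) : (av fun y => av fun z => f y z) = av fun z => av fun y => f y z := by
  unfold av
  rw [← Finset.sum_div, ← Finset.sum_div, Finset.sum_comm]

theorem av_one [Nonempty V] : (av fun _ : V => (1 : ℝ)) = 1 := by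
  unfold av
  rw [Finset.sum_const, nsmul_eq_mul, mul_one, Finset.card_univ, div_self]
  exact_mod_cast Fintype.card_ne_zero

theorem av_prod (f g : V → ℝ) : (av fun y => av fun z => f y * g z) = av f * av g := by
  have h : (fun y => av fun z => f y * g z) = fun y => f y * av g := by
    funext y
    rw [av_mul]
  rw [h, av_mul']

end av

theorem B_nonneg (b : Bool) : 0 ≤ B b := by cases b <;> simp [B]

theorem B_le (b : Bool) : B b ≤ 1 := by cases b <;> simp [B]

/-- the pointwise inequality for the pair -/
theorem pair (A A' C C' D D' s : Bool) (h1 : A = true → A' = false) (h2 : C = true → C' = false)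
    (h3 : D = true → D' = false) :
    B A * B C + B A' * B D + B C' * B D' + B (!(A || A')) * B (!(C || C')) +
      (B (A || A') * B (!(C || C')) + B (!(A || A')) * B (C || C')) * B s - B (s && (D || D')) ≤
    B ((A && C) || (A' && D) || (C' && D') ||
      !(((A || A') && (C || C')) || ((A || A') && (D || D')) || ((C || C') && (D || D')))) := by
  revert h1 h2 h3
  cases A <;> cases A' <;> cases C <;> cases C' <;> cases D <;> cases D' <;> cases s <;>
    simp [B]

theorem same (i k : Fin 4) (P Q : Bool) :
    ∑ j ∈ ({0, 1, 2} : Finset (Fin 4)), B (decide (i = j) && P) * B (decide (k = j) && Q) =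
      B P * B Q * B (decide (i = k) && !decide (i = 3)) := by
  fin_cases i <;> fin_cases k <;> cases P <;> cases Q <;> simp [B]

theorem pt1 : S_PT1 := by
  intro V _ _ _ r c x hO hx
  -- averages
  set p : V → ℝ := fun y => B (r x y) with hp
  set m : V → ℝ := fun y => B (r y x) with hm
  set u : V → ℝ := fun y => B (!adj r x y) with hu
  set q : V → ℝ := fun y => B (adj r x y) with hq
  set a : ℝ := dp r x with ha
  set ν : ℝ := dn r x with hν
  set t : V → V → ℝ := fun y z => B (decide (c y = c z) && !decide (c y = 3)) with ht
  have hpmu : ∀ y, p y + m y + u y = 1 := by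
    intro y
    have h1 := hO x y
    simp only [hp, hm, hu, adj]
    revert h1
    cases r x y <;> cases r y x <;> simp [B]
  have hb : av m = 1 - a - ν := by
    have h1 : (av fun y => p y + m y + u y) = 1 := by
      simp only [hpmu]
      exact av_one
    rw [av_add, av_add] at h1
    have h2 : av p = a := rfl
    have h3 : av u = ν := rfl
    linarith
  -- the lower bound for the number of missing triples
  have hpoint : ∀ y z, p y * p z + m y * B (r y z) + m z * B (r z y) + u y * u z +
      (q y * u z + u y * q z) * t y z -
        B (decide (c y = c z) && !decide (c y = 3) && adj r y z) ≤ B (miss r x y z) := by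
    intro y z
    exact pair (r x y) (r y x) (r x z) (r z x) (r y z) (r z y)
      (decide (c y = c z) && !decide (c y = 3)) (hO x y) (hO x z) (hO y z)
  have h1 : (av fun y => av fun z => p y * p z + m y * B (r y z) + m z * B (r z y) + u y * u z +
      (q y * u z + u y * q z) * t y z -
        B (decide (c y = c z) && !decide (c y = 3) && adj r y z)) ≤ fv r x :=
    av_le fun y => av_le fun z => hpoint y z
  have e1 : (av fun y => av fun z => p y * p z) = a ^ 2 := by
    rw [av_prod, sq]
    rfl
  have e2 : (av fun y => av fun z => m y * B (r y z)) = av fun y => m y * dp r y := by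
    congr 1
    funext y
    rw [av_mul]
    rfl
  have e3 : (av fun y => av fun z => m z * B (r z y)) = av fun y => m y * dp r y := by
    rw [av_swap fun y z => m z * B (r z y)]
    exact e2
  have e4 : (av fun y => av fun z => u y * u z) = ν ^ 2 := by
    rw [av_prod, sq]
    rfl
  set SS : ℝ := ∑ j ∈ ({0, 1, 2} : Finset (Fin 4)),
    (av fun y => B (decide (c y = j) && adj r x y)) *
      (av fun y => B (decide (c y = j) && !adj r x y)) with hSS
  have e5 : (av fun y => av fun z => (q y * u z) * t y z) = SS := by
    have h2 : (fun y => av fun z => (q y * u z) * t y z) = fun y => av fun z =>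
        ∑ j ∈ ({0, 1, 2} : Finset (Fin 4)), B (decide (c y = j) && adj r x y) *
          B (decide (c z = j) && !adj r x z) := by
      funext y
      congr 1
      funext z
      rw [same]
    rw [h2]
    have h3 : ∀ f : Fin 4 → V → V → ℝ, (av fun y => av fun z =>
        ∑ j ∈ ({0, 1, 2} : Finset (Fin 4)), f j y z) =
        ∑ j ∈ ({0, 1, 2} : Finset (Fin 4)), av fun y => av fun z => f j y z := by
      intro f
      simp only [Finset.sum_insert, Finset.mem_insert, Finset.mem_singleton, Fin.isValue,
        Fin.reduceEq, or_self, not_false_eq_true, Finset.sum_singleton, av_add]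
    rw [h3, hSS]
    refine Finset.sum_congr rfl fun j _ => ?_
    rw [av_prod]
  have e6 : (av fun y => av fun z => (u y * q z) * t y z) = SS := by
    rw [av_swap fun y z => (u y * q z) * t y z, ← e5]
    congr 1
    funext z
    congr 1
    funext y
    have h2 : t y z = t z y := by
      simp only [ht]
      by_cases h : c y = c z
      · rw [h]
      · have h' : ¬ c z = c y := fun h'' => h h''.symm
        simp [h, h']
    rw [h2]
    ring
  have e7 : (av fun y => av fun z => p y * p z + m y * B (r y z) + m z * B (r z y) + u y * u z +
      (q y * u z + u y * q z) * t y z -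
        B (decide (c y = c z) && !decide (c y = 3) && adj r y z)) =
      a ^ 2 + 2 * (av fun y => m y * dp r y) + ν ^ 2 + 2 * SS - ce r c := by
    have h2 : (fun y => av fun z => p y * p z + m y * B (r y z) + m z * B (r z y) + u y * u z +
      (q y * u z + u y * q z) * t y z -
        B (decide (c y = c z) && !decide (c y = 3) && adj r y z)) =
        fun y => (av fun z => p y * p z) + (av fun z => m y * B (r y z)) +
          (av fun z => m z * B (r z y)) + (av fun z => u y * u z) +
          ((av fun z => (q y * u z) * t y z) + (av fun z => (u y * q z) * t y z)) -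
          (av fun z => B (decide (c y = c z) && !decide (c y = 3) && adj r y z)) := by
      funext y
      simp only [add_mul, av_sub, av_add]
    rw [h2, av_sub, av_add, av_add, av_add, av_add, av_add, e1, e2, e3, e4, e5, e6]
    unfold ce
    ring
  -- the estimate of the out-degrees of the in-neighbours
  have h2 : 2 / 3 * (1 - a - ν) - (1 - a - ν) / 40 - 40 * V3 r ≤
      2 * av fun y => m y * dp r y := by
    have h3 : ∀ y, (2 / 3 - 1 / 40) * m y - 40 * (dp r y - 1 / 3) ^ 2 ≤ 2 * (m y * dp r y) := by
      intro y
      have hm0 : 0 ≤ m y := B_nonneg _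
      have hm1 : m y ≤ 1 := B_le _
      nlinarith [mul_nonneg hm0 (sq_nonneg (dp r y - 1 / 3 + 1 / 40)),
        mul_nonneg (sub_nonneg.2 hm1) (sq_nonneg (dp r y - 1 / 3))]
    have h4 := av_le h3
    rw [av_sub, av_mul, av_mul, av_mul, hb] at h4
    unfold V3
    linarith
  rw [e7] at h1
  nlinarith

end Pool.Agent.P8H53.FDF
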